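import Pool.Agent.Helper81.XP.StB

set_option autoImplicit false

/-!
MP_f90738_co, module ELR: elimination for an irreducible polynomial.
-/

open Finset
open scoped Pointwise LinearAlgebra.Projectivization

namespace Pool.Agent.Helper83.XP

open Pool.Agent.Helper81.XP

theorem elr_deg {k : Type} [Field k] {g : MvPolynomial (Fin 3) k} (hg : Irreducible g) :
    1 ≤ g.totalDegree := by
  rw [Nat.one_le_iff_ne_zero]
  intro h
  rw [MvPolynomial.totalDegree_eq_zero_iff_eq_C] at h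
  by_cases hc : MvPolynomial.coeff 0 g = 0
  · rw [hc, map_zero] at h
    exact hg.ne_zero h
  · apply hg.not_isUnit
    rw [h]
    exact (Ne.isUnit hc).map MvPolynomial.C

theorem elr_td {k : Type} [Field k] {m n : ℕ} (h : m ≤ n) {F : T3 k} (hF : TD3 m F) :
    TD3 n F := fun i j l hijl => (hF i j l hijl).trans h

theorem st_ELR (hLIA : ST_LIA) (hLIB : ST_LIB) (hSH2 : ST_SH2) (hRES : ST_RES) : ST_ELR := by
  intro k _ _ g g' D hg hndvd hgD hg'D
  obtain ⟨hev, hbij, hsh⟩ := hLIA k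
  obtain ⟨htd, hmo⟩ := hLIB k
  obtain ⟨M, hM, hMg⟩ := hmo g hg.ne_zero
  have hirr : Irreducible (phi M g) :=
    (MulEquiv.irreducible_iff (RingEquiv.ofBijective (phi M) (hbij M hM))).2 hg
  have hnd : ¬ phi M g ∣ phi M g' := by
    intro h
    exact hndvd ((map_dvd_iff (RingEquiv.ofBijective (phi M) (hbij M hM))).1 h)
  obtain ⟨R0, hR0, hR0d, hR0v⟩ := hRES k (phi M g) (phi M g') g.totalDegree D (elr_deg hg) hMg hirr
    hnd (elr_td hg'D (htd M g'))
  obtain ⟨c, N, R1, hN, hR1, hR1e⟩ := hSH2 k R0 ((g.totalDegree + D) ^ 2) hR0 hR0d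
  obtain ⟨M', hM', hM'g, hM'e⟩ := hsh M c g.totalDegree g hM hMg
  refine ⟨M', g.totalDegree, N, R1, hM', elr_deg hg, hgD, ?_, hM'g, hR1, ?_⟩
  · calc N ≤ (g.totalDegree + D) ^ 2 := hN
      _ ≤ (D + D) ^ 2 := Nat.pow_le_pow_left (Nat.add_le_add_right hgD D) 2
      _ = 4 * D ^ 2 := by ring
  · intro a b c0 h1 h2
    rw [hM'e k a b c0] at h1 h2
    rw [hR1e k a b]
    apply hR0v k _ _ c0
    · rw [hev k M]
      exact h1
    · rw [hev k M]
      exact h2

end Pool.Agent.Helper83.XP
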