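import Pool.Agent.Helper81.XP.StA

set_option autoImplicit false

/-!
MP_f90738_co, module GAP: from flatness of the random walk to expansion.
-/

open Finset
open scoped Pointwise LinearAlgebra.Projectivization

namespace Pool.Agent.Helper83.XP

open Pool.Agent.Helper81.XP

section

variable {G : Type} [Group G] [Fintype G]

theorem gap_cv_assoc (ν ν' f : G → ℝ) : cv (cv ν ν') f = cv ν (cv ν' f) := by
  funext x
  simp only [cv, Finset.sum_mul, Finset.mul_sum]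
  rw [Finset.sum_comm]
  apply Finset.sum_congr rfl
  intro y _
  rw [← Equiv.sum_comp (Equiv.mulLeft y)]
  apply Finset.sum_congr rfl
  intro z _
  simp only [Equiv.coe_mulLeft, inv_mul_cancel_left, mul_inv_rev, mul_assoc]

theorem gap_symm {ν : G → ℝ} (hν : ∀ x, ν x⁻¹ = ν x) (g h : G → ℝ) :
    ∑ x, cv ν g x * h x = ∑ x, g x * cv ν h x := by
  simp only [cv, Finset.sum_mul, Finset.mul_sum]
  rw [Finset.sum_comm]
  rw [Finset.sum_comm (f := fun x y => g x * (ν y * h (y⁻¹ * x)))]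
  rw [← Equiv.sum_comp (Equiv.inv G) (fun y => ∑ x, g x * (ν y * h (y⁻¹ * x)))]
  apply Finset.sum_congr rfl
  intro y _
  rw [← Equiv.sum_comp (Equiv.mulLeft y)]
  apply Finset.sum_congr rfl
  intro x _
  simp only [Equiv.coe_mulLeft, Equiv.inv_apply, inv_mul_cancel_left, hν, inv_inv]
  ring

omit [Group G] in
theorem gap_N2_nonneg (f : G → ℝ) : 0 ≤ N2 f := Finset.sum_nonneg (fun _ _ => sq_nonneg _)

omit [Group G] in
theorem gap_cs (f g : G → ℝ) : (∑ x, f x * g x) ^ 2 ≤ N2 f * N2 g :=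
  Finset.sum_mul_sq_le_sq_mul_sq _ _ _

/-- One step of the iteration. -/
theorem gap_step {ν : G → ℝ} (hν : ∀ x, ν x⁻¹ = ν x) (f : G → ℝ) :
    N2 (cv ν f) ^ 2 ≤ N2 (cv (cv ν ν) f) * N2 f := by
  have h1 : N2 (cv ν f) = ∑ x, f x * cv (cv ν ν) f x := by
    rw [gap_cv_assoc, ← gap_symm hν f (cv ν f)]
    apply Finset.sum_congr rfl
    intro x _
    rw [sq]
  rw [h1, mul_comm (N2 _) (N2 f)]
  exact gap_cs _ _

theorem gap_T {μ : ℕ → G → ℝ} (hμs : ∀ n x, μ n x⁻¹ = μ n x)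
    (hμm : ∀ m n, μ (m + n) = cv (μ m) (μ n)) (j : ℕ) {ρ : ℝ} (hρ : 0 < ρ) (f : G → ℝ)
    (h : N2 (cv (μ (2 ^ j)) f) ≤ ρ ^ (2 * 2 ^ j) * N2 f) :
    N2 (cv (μ 1) f) ≤ ρ ^ 2 * N2 f := by
  rcases eq_or_lt_of_le (gap_N2_nonneg f) with h0 | h0
  · have hf : ∀ x, f x = 0 := by
      intro x
      have h1 := (Finset.sum_eq_zero_iff_of_nonneg (fun _ _ => sq_nonneg _)).1 h0.symm x
        (Finset.mem_univ x)
      exact pow_eq_zero_iff (two_ne_zero) |>.1 h1
    have h2 : N2 (cv (μ 1) f) = 0 := by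
      apply Finset.sum_eq_zero
      intro x _
      rw [cv, Finset.sum_eq_zero, sq, zero_mul]
      intro y _
      rw [hf, mul_zero]
    rw [h2, ← h0, mul_zero]
  · have hc : ∀ n, (N2 (cv (μ n) f) / N2 f) ^ 2 ≤ N2 (cv (μ (n + n)) f) / N2 f := by
      intro n
      rw [div_pow, div_le_div_iff₀ (by positivity) h0, hμm n n]
      have := gap_step (hμs n) f
      nlinarith [gap_N2_nonneg (cv (μ n) f), this, h0]
    have hi : ∀ i : ℕ, (N2 (cv (μ 1) f) / N2 f) ^ (2 ^ i) ≤ N2 (cv (μ (2 ^ i)) f) / N2 f := by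
      intro i
      induction i with
      | zero => simp
      | succ i ih =>
        have h3 : (0 : ℝ) ≤ (N2 (cv (μ 1) f) / N2 f) ^ (2 ^ i) :=
          pow_nonneg (div_nonneg (gap_N2_nonneg _) h0.le) _
        calc (N2 (cv (μ 1) f) / N2 f) ^ (2 ^ (i + 1))
            = ((N2 (cv (μ 1) f) / N2 f) ^ (2 ^ i)) ^ 2 := by rw [← pow_mul, pow_succ]
          _ ≤ (N2 (cv (μ (2 ^ i)) f) / N2 f) ^ 2 := pow_le_pow_left₀ h3 ih 2
          _ ≤ N2 (cv (μ (2 ^ i + 2 ^ i)) f) / N2 f := hc _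
          _ = N2 (cv (μ (2 ^ (i + 1))) f) / N2 f := by rw [pow_succ, mul_two]
    have h4 : (N2 (cv (μ 1) f) / N2 f) ^ (2 ^ j) ≤ (ρ ^ 2) ^ (2 ^ j) := by
      refine (hi j).trans ?_
      rw [div_le_iff₀ h0, ← pow_mul]
      exact h
    have h5 : N2 (cv (μ 1) f) / N2 f ≤ ρ ^ 2 :=
      le_of_pow_le_pow_left₀ (pow_ne_zero _ two_ne_zero) (by positivity) h4
    rwa [div_le_iff₀ h0] at h5

theorem gap_dirichlet {ν : G → ℝ} (hν : ∑ x, ν x = 1) (f : G → ℝ) :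
    N2 f - ∑ x, cv ν f x * f x = (∑ y, ν y * ∑ x, (f (y⁻¹ * x) - f x) ^ 2) / 2 := by
  have h1 : ∀ y, ∑ x, (f (y⁻¹ * x) - f x) ^ 2 = 2 * N2 f - 2 * ∑ x, f (y⁻¹ * x) * f x := by
    intro y
    have h2 : ∑ x, f (y⁻¹ * x) ^ 2 = N2 f :=
      Equiv.sum_comp (Equiv.mulLeft y⁻¹) (fun x => f x ^ 2)
    calc ∑ x, (f (y⁻¹ * x) - f x) ^ 2
        = ∑ x, (f (y⁻¹ * x) ^ 2 + f x ^ 2 - 2 * (f (y⁻¹ * x) * f x)) := by
          apply Finset.sum_congr rfl
          intro x _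
          ring
      _ = 2 * N2 f - 2 * ∑ x, f (y⁻¹ * x) * f x := by
          rw [Finset.sum_sub_distrib, Finset.sum_add_distrib, h2, ← Finset.mul_sum]
          simp only [N2]
          ring
  have h3 : ∑ x, cv ν f x * f x = ∑ y, ν y * ∑ x, f (y⁻¹ * x) * f x := by
    simp only [cv, Finset.sum_mul, Finset.mul_sum]
    rw [Finset.sum_comm]
    apply Finset.sum_congr rfl
    intro y _
    apply Finset.sum_congr rfl
    intro x _
    ring
  rw [h3]
  simp only [h1, mul_sub]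
  rw [Finset.sum_sub_distrib, ← Finset.sum_mul, hν]
  have h4 : ∑ y, ν y * (2 * ∑ x, f (y⁻¹ * x) * f x) = 2 * ∑ y, ν y * ∑ x, f (y⁻¹ * x) * f x := by
    rw [Finset.mul_sum]
    apply Finset.sum_congr rfl
    intro y _
    ring
  rw [h4]
  ring

omit [Fintype G] in
theorem gap_mu_one {a b y : G} (h : mu a b 1 y ≠ 0) : ∃ k : Fin 5, lt a b k = y := by
  classical
  rw [mu] at h
  have h1 : (((univ : Finset (Fin 1 → Fin 5)).filter (fun w => wd a b w = y)).card : ℝ) ≠ 0 := by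
    intro h2
    rw [h2, zero_div] at h
    exact h rfl
  have h2 : ((univ : Finset (Fin 1 → Fin 5)).filter (fun w => wd a b w = y)).Nonempty := by
    rw [← Finset.card_ne_zero]
    intro h3
    apply h1
    rw [h3, Nat.cast_zero]
  obtain ⟨w, hw⟩ := h2
  rw [Finset.mem_filter] at hw
  refine ⟨w 0, ?_⟩
  rw [← hw.2, wd]
  simp

open Classical in
theorem gap_boundary (a b : G) (X : Finset G) (k : Fin 5) :
    ∑ x, ((if (lt a b k)⁻¹ * x ∈ X then (1 : ℝ) else 0) - (if x ∈ X then 1 else 0)) ^ 2 ≤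
      2 * ((((({a, b} : Finset G) ∪ ({a, b} : Finset G)⁻¹) * X) \ X).card : ℝ) := by
  set y := lt a b k with hy
  set A : Finset G := univ.filter (fun x => y⁻¹ * x ∈ X) with hA
  have hAc : A.card = X.card := by
    apply Finset.card_bij (fun x _ => y⁻¹ * x)
    · intro x hx
      rw [hA, Finset.mem_filter] at hx
      exact hx.2
    · intro x _ x' _ h
      exact mul_left_cancel h
    · intro x hx
      refine ⟨y * x, ?_, ?_⟩
      · rw [hA, Finset.mem_filter]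
        exact ⟨Finset.mem_univ _, by rw [inv_mul_cancel_left]; exact hx⟩
      · rw [inv_mul_cancel_left]
  have h1 : ∑ x, ((if y⁻¹ * x ∈ X then (1 : ℝ) else 0) - (if x ∈ X then 1 else 0)) ^ 2 =
      ((A \ X).card : ℝ) + ((X \ A).card : ℝ) := by
    have h2 : ∀ x : G, ((if y⁻¹ * x ∈ X then (1 : ℝ) else 0) - (if x ∈ X then 1 else 0)) ^ 2 =
        (if x ∈ A \ X then (1 : ℝ) else 0) + (if x ∈ X \ A then 1 else 0) := by
      intro x
      have hxA : x ∈ A ↔ y⁻¹ * x ∈ X := by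
        rw [hA, Finset.mem_filter]
        exact ⟨fun h => h.2, fun h => ⟨Finset.mem_univ _, h⟩⟩
      simp only [Finset.mem_sdiff, hxA]
      by_cases p : y⁻¹ * x ∈ X <;> by_cases q : x ∈ X <;> simp [p, q]
    have h5 : ∀ S : Finset G, ∑ x, (if x ∈ S then (1 : ℝ) else 0) = (S.card : ℝ) := by
      intro S
      simp
    rw [Finset.sum_congr rfl (fun x _ => h2 x), Finset.sum_add_distrib, h5, h5]
  rw [h1, Finset.card_sdiff_comm hAc.symm]
  have h3 : A \ X ⊆ ((({a, b} : Finset G) ∪ ({a, b} : Finset G)⁻¹) * X) \ X := by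
    intro x hx
    rw [Finset.mem_sdiff] at hx ⊢
    refine ⟨?_, hx.2⟩
    have hxA := hx.1
    rw [hA, Finset.mem_filter] at hxA
    have hy1 : y ≠ 1 := by
      intro h
      rw [h, inv_one, one_mul] at hxA
      exact hx.2 hxA.2
    have hyS : y ∈ ({a, b} : Finset G) ∪ ({a, b} : Finset G)⁻¹ := by
      have hk : ∀ k : Fin 5, lt a b k = y → y ∈ ({a, b} : Finset G) ∪ ({a, b} : Finset G)⁻¹ := by
        intro k hk
        fin_cases k
        · exact absurd hk.symm hy1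
        · rw [← hk]
          simp [lt]
        · rw [← hk]
          simp [lt]
        · rw [← hk]
          simp [lt]
        · rw [← hk]
          simp [lt]
      exact hk k hy.symm
    rw [Finset.mem_mul]
    exact ⟨y, hyS, y⁻¹ * x, hxA.2, mul_inv_cancel_left _ _⟩
  have h4 : ((A \ X).card : ℝ) ≤
      ((((({a, b} : Finset G) ∪ ({a, b} : Finset G)⁻¹) * X) \ X).card : ℝ) := by
    exact_mod_cast Finset.card_le_card h3
  linarith

theorem gap_N2_ind [DecidableEq G] (X : Finset G) (hX : 2 * X.card ≤ Nat.card G) :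
    ∑ x, ((if x ∈ X then (1 : ℝ) else 0) - (X.card : ℝ) / (Nat.card G : ℝ)) = 0 ∧
    (X.card : ℝ) / 2 ≤ N2 (fun x => (if x ∈ X then (1 : ℝ) else 0) -
      (X.card : ℝ) / (Nat.card G : ℝ)) := by
  have hG : (0 : ℝ) < (Nat.card G : ℝ) := by
    exact_mod_cast Nat.card_pos
  have hGc : (Nat.card G : ℝ) = ∑ x : G, (1 : ℝ) := by
    rw [Nat.card_eq_fintype_card, Finset.sum_const, Finset.card_univ, nsmul_eq_mul, mul_one]
  have hs : ∑ x : G, (if x ∈ X then (1 : ℝ) else 0) = (X.card : ℝ) := by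
    simp
  have hXr : 2 * (X.card : ℝ) ≤ (Nat.card G : ℝ) := by
    exact_mod_cast hX
  set c : ℝ := (X.card : ℝ) / (Nat.card G : ℝ) with hc
  have hcG : c * (Nat.card G : ℝ) = (X.card : ℝ) := by
    rw [hc]
    exact div_mul_cancel₀ _ hG.ne'
  have hc2 : c ≤ 1 / 2 := by
    rw [hc, div_le_iff₀ hG]
    linarith
  constructor
  · rw [Finset.sum_sub_distrib, hs, Finset.sum_const, Finset.card_univ,
      ← Nat.card_eq_fintype_card, nsmul_eq_mul, mul_comm, hcG, sub_self]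
  · have h1 : N2 (fun x => (if x ∈ X then (1 : ℝ) else 0) - c) =
        (X.card : ℝ) - c * (X.card : ℝ) := by
      have h2 : ∀ x : G, ((if x ∈ X then (1 : ℝ) else 0) - c) ^ 2 =
          (1 - 2 * c) * (if x ∈ X then (1 : ℝ) else 0) + c ^ 2 * 1 := by
        intro x
        by_cases p : x ∈ X <;> simp [p]
        ring
      rw [N2, Finset.sum_congr rfl (fun x _ => h2 x), Finset.sum_add_distrib, ← Finset.mul_sum,
        ← Finset.mul_sum, hs, ← hGc, sq, mul_assoc, hcG]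
      ring
    rw [h1]
    have h3 : (0 : ℝ) ≤ (X.card : ℝ) := Nat.cast_nonneg _
    nlinarith

theorem gap_abs (hWLK : ST_WLK) (a b : G) (j : ℕ) {ρ : ℝ} (hρ : 0 < ρ) (hρ1 : ρ < 1)
    (h : ∀ f : G → ℝ, ∑ x, f x = 0 →
      N2 (cv (mu a b (2 ^ j)) f) ≤ ρ ^ (2 * 2 ^ j) * N2 f) : Expd a b ((1 - ρ) ^ 2 / 4) := by
  classical
  intro X hX
  have hmu : ∀ n, SP (mu a b n) := fun n => (hWLK G a b n n).1
  obtain ⟨hsum, hN2⟩ := gap_N2_ind X hX
  set f : G → ℝ := fun x => (if x ∈ X then (1 : ℝ) else 0) - (X.card : ℝ) / (Nat.card G : ℝ)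
    with hf
  have h1 : N2 (cv (mu a b 1) f) ≤ ρ ^ 2 * N2 f :=
    gap_T (μ := fun n => mu a b n) (fun n x => (hmu n).2.2 x) (fun m n => (hWLK G a b m n).2.1)
      j hρ f (h f hsum)
  have h2 : ∑ x, cv (mu a b 1) f x * f x ≤ ρ * N2 f := by
    have h3 := gap_cs (cv (mu a b 1) f) f
    have h4 : (∑ x, cv (mu a b 1) f x * f x) ^ 2 ≤ (ρ * N2 f) ^ 2 := by
      calc (∑ x, cv (mu a b 1) f x * f x) ^ 2 ≤ N2 (cv (mu a b 1) f) * N2 f := h3
        _ ≤ (ρ ^ 2 * N2 f) * N2 f := mul_le_mul_of_nonneg_right h1 (gap_N2_nonneg f)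
        _ = (ρ * N2 f) ^ 2 := by ring
    exact le_trans (le_abs_self _) (abs_le_of_sq_le_sq h4 (mul_nonneg hρ.le (gap_N2_nonneg f)))
  have h5 := gap_dirichlet (hmu 1).2.1 f
  have h6 : ∑ y, mu a b 1 y * ∑ x, (f (y⁻¹ * x) - f x) ^ 2 ≤
      ∑ y, mu a b 1 y *
        (2 * ((((({a, b} : Finset G) ∪ ({a, b} : Finset G)⁻¹) * X) \ X).card : ℝ)) := by
    apply Finset.sum_le_sum
    intro y _
    by_cases hy : mu a b 1 y = 0
    · rw [hy, zero_mul, zero_mul]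
    · obtain ⟨k, hk⟩ := gap_mu_one hy
      apply mul_le_mul_of_nonneg_left _ ((hmu 1).1 y)
      have h7 := gap_boundary a b X k
      rw [hk] at h7
      refine le_trans (le_of_eq ?_) h7
      apply Finset.sum_congr rfl
      intro x _
      rw [hf]
      simp only
      ring
  rw [← Finset.sum_mul, (hmu 1).2.1, one_mul] at h6
  have h8 : (0 : ℝ) ≤ (X.card : ℝ) := Nat.cast_nonneg _
  have h9 : (1 - ρ) * N2 f ≤
      ((((({a, b} : Finset G) ∪ ({a, b} : Finset G)⁻¹) * X) \ X).card : ℝ) := by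
    nlinarith
  have h10 : (1 - ρ) * ((X.card : ℝ) / 2) ≤ (1 - ρ) * N2 f :=
    mul_le_mul_of_nonneg_left hN2 (by linarith)
  have h11 : (1 - ρ) ^ 2 / 4 * (X.card : ℝ) ≤ (1 - ρ) * ((X.card : ℝ) / 2) := by
    have h12 : (1 - ρ) ^ 2 / 4 ≤ (1 - ρ) / 2 := by nlinarith
    calc (1 - ρ) ^ 2 / 4 * (X.card : ℝ) ≤ (1 - ρ) / 2 * (X.card : ℝ) :=
          mul_le_mul_of_nonneg_right h12 h8
      _ = (1 - ρ) * ((X.card : ℝ) / 2) := by ring
  exact h11.trans (h10.trans h9)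

end

theorem st_GAP (hQSR : ST_QSR) (hWLK : ST_WLK) : ST_GAP := by
  intro p _ hp a b j ρ hρ hρ1 h
  apply gap_abs hWLK a b j hρ hρ1
  intro f hf
  have h1 := hQSR p hp (mu a b (2 ^ j)) f hf
  have hp1 : (0 : ℝ) < (p : ℝ) - 1 := by
    have : (5 : ℝ) ≤ (p : ℝ) := by exact_mod_cast hp
    linarith
  have h2 : ((p : ℝ) - 1) * N2 (cv (mu a b (2 ^ j)) f) ≤
      ((p : ℝ) - 1) * (ρ ^ (2 * 2 ^ j) * N2 f) := by
    calc ((p : ℝ) - 1) * N2 (cv (mu a b (2 ^ j)) f)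
        ≤ 2 * (Nat.card (SL (ZMod p)) : ℝ) * N2 (mu a b (2 ^ j)) * N2 f := h1
      _ ≤ ((p : ℝ) - 1) * ρ ^ (2 * 2 ^ j) * N2 f :=
          mul_le_mul_of_nonneg_right h (gap_N2_nonneg f)
      _ = ((p : ℝ) - 1) * (ρ ^ (2 * 2 ^ j) * N2 f) := by ring
  exact le_of_mul_le_mul_left h2 hp1

end Pool.Agent.Helper83.XP
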