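import Pool.Agent.Helper81.XP.StC

set_option autoImplicit false

/-!
MP_f90738_co, module SMS: trivial expansion of a generating set.
-/

open Finset
open scoped Pointwise LinearAlgebra.Projectivization

namespace Pool.Agent.Helper83.XP

open Pool.Agent.Helper81.XP

theorem sms_pow {G : Type} [Group G] {l : ℕ} (H : Subgroup G) (T : Finset G)
    [DecidableEq G] (hT : ∀ x ∈ T, x ∈ H) : ∀ x ∈ T ^ l, x ∈ H := by
  induction l with
  | zero =>
    intro x hx
    rw [pow_zero, Finset.mem_one] at hx
    rw [hx]
    exact H.one_mem
  | succ l ih =>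
    intro x hx
    rw [pow_succ, Finset.mem_mul] at hx
    obtain ⟨y, hy, z, hz, rfl⟩ := hx
    exact H.mul_mem (ih y hy) (hT z hz)

theorem sms_Bl {G : Type} [Group G] {S : Finset G} {l : ℕ} {a : G} (ha : a ∈ Bl S l) :
    a ∈ Subgroup.closure (S : Set G) := by
  classical
  unfold Bl at ha
  refine sms_pow (Subgroup.closure (S : Set G)) _ ?_ a ha
  intro x hx
  rw [Finset.mem_union, Finset.mem_union, Finset.mem_inv', Finset.mem_singleton] at hx
  rcases hx with (hx | hx) | hx
  · exact Subgroup.subset_closure (Finset.mem_coe.2 hx)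
  · rw [← inv_inv x]
    exact (Subgroup.closure (S : Set G)).inv_mem (Subgroup.subset_closure (Finset.mem_coe.2 hx))
  · rw [hx]
    exact (Subgroup.closure (S : Set G)).one_mem

theorem st_SMS : ST_SMS := by
  classical
  intro G _ _ S a b l ha hb hab
  have := Fintype.ofFinite G
  have htop : Subgroup.closure (S : Set G) = ⊤ := by
    rcases hab with h | h
    · rw [eq_top_iff, ← h, Subgroup.closure_le]
      intro x hx
      rcases hx with rfl | hx
      · exact sms_Bl ha
      · rw [Set.mem_singleton_iff.1 hx]
        exact sms_Bl hb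
    · exact h
  intro X hX
  have hG : (0 : ℝ) < (Nat.card G : ℝ) := Nat.cast_pos.2 Nat.card_pos
  rcases X.eq_empty_or_nonempty with rfl | hne
  · simp
  · have hXG : (X.card : ℝ) ≤ (Nat.card G : ℝ) := by
      have : X.card ≤ Nat.card G := by omega
      exact_mod_cast this
    have h1 : (1 / (Nat.card G : ℝ)) * (X.card : ℝ) ≤ 1 := by
      rw [one_div, inv_mul_le_iff₀ hG, mul_one]
      exact hXG
    refine h1.trans ?_
    rw [Nat.one_le_cast, Nat.one_le_iff_ne_zero, Ne, Finset.card_eq_zero, Finset.sdiff_eq_empty_iff_subset]
    intro hsub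
    have hst : ∀ g ∈ Subgroup.closure (S : Set G), ∀ x ∈ X, g * x ∈ X := by
      intro g hg
      induction hg using Subgroup.closure_induction'' with
      | mem y hy =>
        intro x hx
        exact hsub (Finset.mul_mem_mul (Finset.mem_union_left _ (Finset.mem_coe.1 hy)) hx)
      | inv_mem y hy =>
        intro x hx
        exact hsub (Finset.mul_mem_mul (Finset.mem_union_right _
          (Finset.mem_inv'.2 (by rw [inv_inv]; exact Finset.mem_coe.1 hy))) hx)
      | one =>
        intro x hx
        rw [one_mul]
        exact hx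
      | mul y z _ _ hy hz =>
        intro x hx
        rw [mul_assoc]
        exact hy _ (hz x hx)
    obtain ⟨x0, hx0⟩ := hne
    have huniv : X = Finset.univ := by
      apply Finset.eq_univ_of_forall
      intro g
      have h2 := hst (g * x0⁻¹) (by rw [htop]; exact Subgroup.mem_top _) x0 hx0
      rwa [inv_mul_cancel_right] at h2
    rw [huniv, Finset.card_univ, Nat.card_eq_fintype_card] at hX
    have : 0 < Fintype.card G := Fintype.card_pos
    omega

end Pool.Agent.Helper83.XP
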